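import Pool.Agent.H95.FI.Defs
import Pool.Agent.H96.FG.R

set_option autoImplicit false

open MvPolynomial

namespace H17.FI

open H95.FG H95.FI

/-- an orthonormal family of `a` vectors whose span contains a subspace of dimension `≤ a` -/
theorem exists_onb {n a : ℕ} (ha : a ≤ n) (W : Submodule ℂ (EuclideanSpace ℂ (Fin n)))
    (hd : Module.finrank ℂ W ≤ a) :
    ∃ v : Fin a → EuclideanSpace ℂ (Fin n), Orthonormal ℂ v ∧
      ∀ w ∈ W, w ∈ Submodule.span ℂ (Set.range v) := by
  classical
  let B := stdOrthonormalBasis ℂ W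
  let f : Fin n → EuclideanSpace ℂ (Fin n) := fun i =>
    if h : i.val < Module.finrank ℂ W then (B ⟨i.val, h⟩ : EuclideanSpace ℂ (Fin n)) else 0
  let s : Set (Fin n) := {i | i.val < Module.finrank ℂ W}
  have hf : Orthonormal ℂ (s.domRestrict f) := by
    have h1 : Orthonormal ℂ (fun i : s => (B ⟨i.1.val, i.2⟩ : EuclideanSpace ℂ (Fin n))) := by
      have h2 : Orthonormal ℂ (fun i => (B i : EuclideanSpace ℂ (Fin n))) :=
        B.orthonormal.comp_linearIsometry W.subtypeₗᵢ
      refine h2.comp (fun i : s => (⟨i.1.val, i.2⟩ : Fin (Module.finrank ℂ W))) ?_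
      intro i j hij
      have := congrArg Fin.val hij
      exact Subtype.ext (Fin.ext this)
    convert h1 using 1
    funext i
    have hi : i.1.val < Module.finrank ℂ W := i.2
    change f i.1 = _
    simp only [f, dif_pos hi]
  obtain ⟨b', hb'⟩ := hf.exists_orthonormalBasis_extension_of_card_eq (by simp)
  have hB : ∀ i : Fin (Module.finrank ℂ W), (B i : EuclideanSpace ℂ (Fin n)) ∈
      Submodule.span ℂ (Set.range fun i : Fin a => b' ⟨i.val, by omega⟩) := by
    intro i
    have hi : i.val < n := by omega
    have h1 := hb' ⟨i.val, hi⟩ i.2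
    simp only [f, dif_pos i.2] at h1
    rw [← h1]
    exact Submodule.subset_span ⟨⟨i.val, by omega⟩, rfl⟩
  refine ⟨fun i => b' ⟨i.val, by omega⟩, ?_, ?_⟩
  · refine b'.orthonormal.comp _ ?_
    intro i j hij
    simp only [Fin.mk.injEq] at hij
    exact Fin.ext hij
  · intro w hw
    have h1 := B.sum_repr ⟨w, hw⟩
    have h2 := congrArg (fun x : W => (x : EuclideanSpace ℂ (Fin n))) h1
    simp only [Submodule.coe_sum, Submodule.coe_smul] at h2
    rw [← h2]
    exact Submodule.sum_mem _ fun i _ => Submodule.smul_mem _ _ (hB i)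

theorem t_HALF (hBLK : S_BLK) (hUNI : S_UNI) : S_HALF := by
  classical
  intro n m p A hS a r v w ha hw hli
  let L : (Fin n → ℂ) →ₗ[ℂ] EuclideanSpace ℂ (Fin n) :=
    (WithLp.linearEquiv 2 ℂ (Fin n → ℂ)).symm.toLinearMap
  let W : Submodule ℂ (EuclideanSpace ℂ (Fin n)) := Submodule.span ℂ (Set.range fun i => L (v i))
  have hd : Module.finrank ℂ W ≤ a := by
    have h1 := finrank_range_le_card (R := ℂ) (fun i => L (v i))
    rw [Fintype.card_fin] at h1
    exact h1
  obtain ⟨e, he, hWe⟩ := exists_onb (by omega : a ≤ n) W hd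
  have hwW : ∀ i, L (w i) ∈ W := by
    intro i
    have h1 := Submodule.mem_map_of_mem (f := L) (hw i)
    rw [Submodule.map_span, ← Set.range_comp] at h1
    exact h1
  have hx : ∀ i, ∃ x : Fin a → ℂ, ∀ k, w i k = ∑ l, x l * e l k := by
    intro i
    obtain ⟨x, hx⟩ := (Submodule.mem_span_range_iff_exists_fun ℂ).mp (hWe _ (hwW i))
    refine ⟨x, fun k => ?_⟩
    have h2 : (L (w i)) k = w i k := rfl
    rw [← h2, ← hx]
    simp
  choose x hx using hx
  have hidx : ∀ (g : Fin 2) (l : Fin a), g.val * a + l.val < n := by
    intro g l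
    have h1 : g.val ≤ 1 := by omega
    have h2 : g.val * a ≤ a := by
      calc g.val * a ≤ 1 * a := Nat.mul_le_mul_right a h1
        _ = a := one_mul a
    have := l.2
    omega
  let em : Fin 2 → Fin a → Fin n := fun g l => ⟨g.val * a + l.val, hidx g l⟩
  have hem : ∀ g, Function.Injective (em g) := by
    intro g l l' h
    have := congrArg Fin.val h
    simp only [em] at this
    exact Fin.ext (by omega)
  have hdisj : ∀ g g' l l', em g l = em g' l' → g = g' := by
    intro g g' l l' h
    have := congrArg Fin.val h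
    simp only [em] at this
    have hl := l.2
    have hl' := l'.2
    fin_cases g <;> fin_cases g' <;> simp at this ⊢ <;> omega
  let c : (g : Fin 2) → Fin r → (Fin n → ℂ) := fun g i k =>
    ∑ l, if em g l = k then x i l else 0
  have hle := hBLK n m p A hS 2 (fun _ => r) c (by
      intro g g' hg i j
      refine Finset.sum_eq_zero fun k _ => ?_
      by_cases h1 : ∃ l, em g l = k
      · obtain ⟨l, hl⟩ := h1
        have h2 : c g' j k = 0 := by
          apply Finset.sum_eq_zero
          intro l' _
          rw [if_neg]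
          intro h3
          exact hg (hdisj g g' l l' (hl.trans h3.symm))
        rw [h2]
        simp
      · have h2 : c g i k = 0 := by
          apply Finset.sum_eq_zero
          intro l _
          rw [if_neg (fun h3 => h1 ⟨l, h3⟩)]
        rw [h2, zero_mul])
    (by
      intro g
      obtain ⟨Z, γ, c1, c2⟩ := hUNI n a (em g) (hem g) e he
      refine ⟨Z, γ, H96.FG.block_ne p Z γ c2 _ ?_⟩
      have e1 : (fun i => ev p (Z.mulVec (c g i))) = fun i => ev p (w i) := by
        funext i
        congr 1
        ext k
        rw [hx i k]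
        simp only [Matrix.mulVec, dotProduct, c, Finset.mul_sum]
        rw [Finset.sum_comm]
        refine Finset.sum_congr rfl fun l _ => ?_
        rw [Finset.sum_eq_single (em g l)]
        · rw [if_pos rfl, c1 l k]
          ring
        · intro k' _ hk'
          rw [if_neg (fun h => hk' h.symm), mul_zero]
        · intro h
          exact absurd (Finset.mem_univ _) h
      rw [e1]
      exact hli)
  simp at hle
  omega

end H17.FI
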